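import Pool.Agent.P.MP_37b794_lc.Core

/-!
An enumeration of a set by an ordinal lies in every transitive model of ZF that contains the
ordinals and the induced well-ordering.
-/

universe u

namespace Pool.Agent.P.MP_37b794_lc

open ZFSet Pool.Agent.Lib.Forcing

variable {N : Set ZFSet.{u}}

theorem exists_enum [ZFm N] (hord : ∀ o : Ordinal.{u}, o.toZFSet ∈ N) (m : Ordinal.{u})
    (code : Ordinal.{u} → ZFSet.{u}) (hinj : Set.InjOn code (Set.Iio m)) {W R : ZFSet.{u}}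
    (hW : W ∈ N) (hR : R ∈ N) (hW' : ∀ y, y ∈ W ↔ ∃ η < m, y = code η)
    (hR' : ∀ y x, pair y x ∈ R ↔ ∃ ξ η, ξ < η ∧ η < m ∧ y = code ξ ∧ x = code η) :
    ∃ f ∈ N, ∀ a y, pair a y ∈ f ↔ ∃ η < m, a = η.toZFSet ∧ y = code η := by
  classical
  have := InM.mk hW
  have := InM.mk hR
  let idx : ZFSet.{u} → Ordinal.{u} := fun y => if h : ∃ η < m, y = code η then h.choose else 0
  have hidx : ∀ η < m, idx (code η) = η := by
    intro η hη
    have h : ∃ η' < m, code η = code η' := ⟨η, hη, rfl⟩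
    simp only [idx, dif_pos h]
    exact (hinj hη h.choose_spec.1 h.choose_spec.2).symm
  have hidx0 : ∀ y, (¬ ∃ η < m, y = code η) → idx y = 0 := fun y h => by simp only [idx, dif_neg h]
  have hwf : WellFounded (fun y x : ZFSet.{u} => pair y x ∈ R) := by
    refine Subrelation.wf (r := InvImage (· < ·) idx) ?_ (InvImage.wf idx wellFounded_lt)
    intro y x h
    obtain ⟨ξ, η, h1, h2, rfl, rfl⟩ := (hR' _ _).1 h
    show idx _ < idx _
    rw [hidx _ h2, hidx _ (h1.trans h2)]; exact h1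
  have hmem : ∀ x w : ZFSet.{u}, w ∈ (idx x).toZFSet ↔
      ∃ y, pair y x ∈ R ∧ w = (idx y).toZFSet := by
    intro x w
    rw [Ordinal.mem_toZFSet_iff]
    constructor
    · rintro ⟨ξ, hξ, rfl⟩
      by_cases h : ∃ η < m, x = code η
      · obtain ⟨η, hη, rfl⟩ := h
        rw [hidx _ hη] at hξ
        exact ⟨code ξ, (hR' _ _).2 ⟨ξ, η, hξ, hη, rfl, rfl⟩, by rw [hidx _ (hξ.trans hη)]⟩
      · rw [hidx0 _ h] at hξ; exact absurd hξ (by simp)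
    · rintro ⟨y, hy, rfl⟩
      obtain ⟨ξ, η, h1, h2, rfl, rfl⟩ := (hR' _ _).1 hy
      exact ⟨ξ, by rw [hidx _ h2]; exact h1, by rw [hidx _ (h1.trans h2)]⟩
  have htm : Tm N (fun e => (idx (e 0)).toZFSet) := by
    refine recursion (fun y x => pair y x ∈ R) hwf ?_ (fun x => (idx x).toZFSet)
      (fun x f z => (∀ w ∈ z, ∃ y, pair y x ∈ R ∧ pair y w ∈ f) ∧
        ∀ y, pair y x ∈ R → ∀ w, pair y w ∈ f → w ∈ z) ?_
    · intro x hx
      refine ⟨insert x W, insert_mem hx hW, mem_insert _ _, fun y _ z hz => ?_⟩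
      obtain ⟨ξ, η, h1, h2, rfl, rfl⟩ := (hR' _ _).1 hz
      exact mem_insert_of_mem _ ((hW' _).2 ⟨ξ, h1.trans h2, rfl⟩)
    · intro x _ f _ H
      refine ⟨hord _, fun z _ => ⟨fun ⟨h1, h2⟩ => ?_, ?_⟩⟩
      · ext w
        rw [hmem]
        constructor
        · intro hw
          obtain ⟨y, hy, hyw⟩ := h1 w hw
          exact ⟨y, hy, (H y hy w).1 hyw⟩
        · rintro ⟨y, hy, hw⟩
          exact h2 y hy w ((H y hy w).2 hw)
      · rintro rfl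
        refine ⟨fun w hw => ?_, fun y hy w hw => ?_⟩
        · obtain ⟨y, hy, hw⟩ := (hmem _ _).1 hw
          exact ⟨y, hy, (H y hy w).2 hw⟩
        · exact (hmem _ _).2 ⟨y, hy, (H y hy w).1 hw⟩
  have h1 : ∀ (s : Env.{u} → ZFSet.{u}) [Tm N s], Tm N (fun e => (idx (s e)).toZFSet) :=
    fun s _ => htm.apply1 (F := fun x => (idx x).toZFSet) s
  obtain ⟨f, hf, -, hf'⟩ := exists_pairSep (M := N) (fun a y => a = (idx y).toZFSet) (hord m) hW
  refine ⟨f, hf, fun a y => ?_⟩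
  rw [hf']
  constructor
  · rintro ⟨-, hy, rfl⟩
    obtain ⟨η, hη, rfl⟩ := (hW' _).1 hy
    exact ⟨η, hη, by rw [hidx _ hη], rfl⟩
  · rintro ⟨η, hη, rfl, rfl⟩
    exact ⟨Ordinal.toZFSet_mem_toZFSet_iff.2 hη, (hW' _).2 ⟨η, hη, rfl⟩, by rw [hidx _ hη]⟩

theorem not_measurable_of_codes [ZFm N] (hord : ∀ o : Ordinal.{u}, o.toZFSet ∈ N)
    {l m : Ordinal.{u}} (hlm : l < m) (B : ZFSet.{u}) (g : Ordinal.{u} → ZFSet.{u})
    (hgB : ∀ ξ < l, g ξ ∈ B) (hg : Set.InjOn g (Set.Iio l)) (k : Ordinal.{u} → Set Ordinal.{u})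
    (hk : ∀ η < m, k η ⊆ Set.Iio l) (hki : Set.InjOn k (Set.Iio m))
    (h1 : ∀ W, W ⊆ powerset B → W ∈ N) (h2 : ∀ R, R ⊆ (powerset B).prod (powerset B) → R ∈ N)
    (h3 : ∀ G, G ⊆ l.toZFSet.prod B → G ∈ N) : ¬ MeasurableIn N m.toZFSet := by
  let code : Ordinal.{u} → ZFSet.{u} := fun η => B.sep fun s => ∃ ξ ∈ k η, s = g ξ
  have hcode : ∀ η < m, ∀ ξ < l, g ξ ∈ code η ↔ ξ ∈ k η := by
    intro η hη ξ hξ
    refine ⟨fun h => ?_, fun h => mem_sep.2 ⟨hgB ξ hξ, ξ, h, rfl⟩⟩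
    obtain ⟨-, ξ', h', h⟩ := mem_sep.1 h
    rwa [hg hξ (hk η hη h') h]
  have hsepk : ∀ η < m, ∀ η' < m, (∀ ξ < l, g ξ ∈ code η ↔ g ξ ∈ code η') → η = η' := by
    intro η hη η' hη' H
    refine hki hη hη' (Set.ext fun ξ => ⟨fun h => ?_, fun h => ?_⟩)
    · have hξ := hk η hη h
      exact (hcode _ hη' _ hξ).1 ((H ξ hξ).1 ((hcode _ hη _ hξ).2 h))
    · have hξ := hk η' hη' h
      exact (hcode _ hη _ hξ).1 ((H ξ hξ).2 ((hcode _ hη' _ hξ).2 h))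
  have hinj : Set.InjOn code (Set.Iio m) := fun η hη η' hη' h =>
    hsepk η hη η' hη' fun ξ _ => by rw [h]
  have hcP : ∀ η, code η ∈ powerset B := fun η => mem_powerset.2 sep_subset
  obtain ⟨f, hf, hf'⟩ := exists_enum hord m code hinj
    (W := (powerset B).sep fun y => ∃ η < m, y = code η)
    (R := ((powerset B).prod (powerset B)).sep fun z =>
      ∃ ξ η, ξ < η ∧ η < m ∧ z = pair (code ξ) (code η))
    (h1 _ sep_subset) (h2 _ sep_subset)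
    (fun y => by
      rw [mem_sep]
      exact ⟨fun h => h.2, fun ⟨η, hη, h⟩ => ⟨h ▸ hcP η, η, hη, h⟩⟩)
    (fun y x => by
      rw [mem_sep]
      constructor
      · rintro ⟨-, ξ, η, h1, h2, h⟩
        exact ⟨ξ, η, h1, h2, pair_inj.1 h⟩
      · rintro ⟨ξ, η, h1, h2, rfl, rfl⟩
        exact ⟨pair_mem_prod.2 ⟨hcP _, hcP _⟩, ξ, η, h1, h2, rfl⟩)
  set G := (l.toZFSet.prod B).sep fun z => ∃ ξ < l, z = pair ξ.toZFSet (g ξ) with hG
  have hGN : G ∈ N := h3 _ sep_subset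
  have hG' : ∀ ξ < l, ∀ s, pair ξ.toZFSet s ∈ G ↔ s = g ξ := by
    intro ξ hξ s
    rw [mem_sep]
    constructor
    · rintro ⟨-, ξ', -, h⟩
      obtain ⟨h, h'⟩ := pair_inj.1 h
      rw [h', Ordinal.toZFSet_injective h]
    · rintro rfl
      exact ⟨pair_mem_prod.2 ⟨Ordinal.toZFSet_mem_toZFSet_iff.2 hξ, hgB ξ hξ⟩, ξ, hξ, rfl⟩
  have := InM.mk hGN
  have := InM.mk hf
  obtain ⟨E, hE, -, hE'⟩ := exists_pairSep (M := N)
    (fun α a => ∃ s, pair α s ∈ G ∧ ∃ y, pair a y ∈ f ∧ s ∈ y) (hord l) (hord m)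
  have hE2 : ∀ ξ < l, ∀ η < m, pair ξ.toZFSet η.toZFSet ∈ E ↔ g ξ ∈ code η := by
    intro ξ hξ η hη
    rw [hE']
    constructor
    · rintro ⟨-, -, s, hs, y, hy, h⟩
      obtain ⟨η', -, h', rfl⟩ := (hf' _ _).1 hy
      rw [Ordinal.toZFSet_injective h', ← (hG' ξ hξ s).1 hs]; exact h
    · intro h
      exact ⟨Ordinal.toZFSet_mem_toZFSet_iff.2 hξ, Ordinal.toZFSet_mem_toZFSet_iff.2 hη, _,
        (hG' ξ hξ _).2 rfl, _, (hf' _ _).2 ⟨η, hη, rfl, rfl⟩, h⟩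
  refine not_measurable_of_separating (Ordinal.toZFSet_mem_toZFSet_iff.2 hlm) (hord m) hE ?_
  intro a ha b hb H
  obtain ⟨η, hη, rfl⟩ := Ordinal.mem_toZFSet_iff.1 ha
  obtain ⟨η', hη', rfl⟩ := Ordinal.mem_toZFSet_iff.1 hb
  rw [hsepk η hη η' hη' fun ξ hξ => ?_]
  rw [← hE2 ξ hξ η hη, ← hE2 ξ hξ η' hη']
  exact H _ (Ordinal.toZFSet_mem_toZFSet_iff.2 hξ)

end Pool.Agent.P.MP_37b794_lc
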