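import Pool.Agent.P.MP_37b794_lc.Defs
import Pool.Agent.Lib.Constructible.Model

/-!
If a transitive model of ZF sees a separating family of fewer than `μ` subsets of `μ`, then `μ`
is not measurable in it.
-/

universe u

namespace Pool.Agent.P.MP_37b794_lc

open ZFSet Pool.Agent.Lib.Forcing

theorem zfm_univ : IsZFModel (Set.univ : Set ZFSet.{u}) := by
  refine ⟨fun _ _ _ _ => trivial, fun _ _ _ _ => trivial, fun _ _ => trivial,
    fun x _ => ⟨powerset x, trivial, fun z _ h => mem_powerset.2 h⟩, trivial,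
    fun _ _ _ _ _ => trivial, fun φ e _ a _ H => ?_⟩
  classical
  refine ⟨img (fun x => if h : x ∈ a then (H x h).choose else ∅) a, trivial, fun x hx => ?_⟩
  refine ⟨(H x hx).choose, mem_img.2 ⟨x, hx, by simp [hx]⟩, (H x hx).choose_spec.1.2⟩

variable {N : Set ZFSet.{u}}

/-- A separating family indexed by `γ ∈ μ`, given by a relation `E ∈ N`. -/
theorem not_measurable_of_separating [ZFm N] {γ μ E : ZFSet.{u}} (hγ : γ ∈ μ) (hμ : μ ∈ N)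
    (hE : E ∈ N)
    (hsep : ∀ ξ ∈ μ, ∀ η ∈ μ, (∀ α ∈ γ, pair α ξ ∈ E ↔ pair α η ∈ E) → ξ = η) :
    ¬ MeasurableIn N μ := by
  rintro ⟨U, hU, -, -, h0, -, -, hdec, hnp, hcomp⟩
  have := InM.mk hU
  have := InM.mk hμ
  have := InM.mk hE
  have hγN : γ ∈ N := mem_of_mem hμ hγ
  have hX : ∀ α ∈ γ, μ.sep (fun ξ => pair α ξ ∈ E) ∈ N := by
    intro α hα
    have := InM.mk (mem_of_mem hγN hα)
    exact sep_mem (fun ξ => pair α ξ ∈ E) hμ
  obtain ⟨c, hc, hcs, hc'⟩ := exists_pairSep (M := N)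
    (fun α Y => (μ.sep (fun ξ => pair α ξ ∈ E) ∈ U ∧ Y = μ.sep (fun ξ => pair α ξ ∈ E)) ∨
      (¬ μ.sep (fun ξ => pair α ξ ∈ E) ∈ U ∧ Y = μ \ μ.sep (fun ξ => pair α ξ ∈ E))) hγN hU
  have hf : IsFunc γ U c := by
    refine ⟨hcs, fun α hα => ?_⟩
    by_cases h : μ.sep (fun ξ => pair α ξ ∈ E) ∈ U
    · refine ⟨_, (hc' _ _).2 ⟨hα, h, Or.inl ⟨h, rfl⟩⟩, fun Y hY => ?_⟩
      rcases ((hc' _ _).1 hY).2.2 with h' | h'
      · exact h'.2
      · exact absurd h h'.1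
    · have h2 := (hdec _ (hX α hα) sep_subset).resolve_left h
      refine ⟨_, (hc' _ _).2 ⟨hα, h2, Or.inr ⟨h, rfl⟩⟩, fun Y hY => ?_⟩
      rcases ((hc' _ _).1 hY).2.2 with h' | h'
      · exact absurd h'.1 h
      · exact h'.2
  have hZ := hcomp γ hγ c hc hf
  set Z := μ.sep (fun ξ => ∀ α X, pair α X ∈ c → ξ ∈ X) with hZdef
  have key : ∀ ξ ∈ Z, ∀ α ∈ γ, (pair α ξ ∈ E ↔ μ.sep (fun ξ => pair α ξ ∈ E) ∈ U) := by
    intro ξ hξ α hα
    obtain ⟨hξμ, hξ⟩ := mem_sep.1 hξ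
    by_cases h : μ.sep (fun ξ => pair α ξ ∈ E) ∈ U
    · have := hξ α _ ((hc' _ _).2 ⟨hα, h, Or.inl ⟨h, rfl⟩⟩)
      exact ⟨fun _ => h, fun _ => (mem_sep.1 this).2⟩
    · have h2 := (hdec _ (hX α hα) sep_subset).resolve_left h
      have := hξ α _ ((hc' _ _).2 ⟨hα, h2, Or.inr ⟨h, rfl⟩⟩)
      exact ⟨fun h' => absurd (mem_sep.2 ⟨hξμ, h'⟩) (mem_sdiff.1 this).2, fun h' => absurd h' h⟩
  by_cases hne : Z = ∅
  · exact h0 (hne ▸ hZ)
  · obtain ⟨ξ, hξ⟩ := (eq_empty_or_nonempty Z).resolve_left hne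
    have hξ' : ξ ∈ Z := hξ
    have : Z = {ξ} := by
      ext η
      rw [mem_singleton]
      refine ⟨fun hη => hsep _ (mem_sep.1 hη).1 _ (mem_sep.1 hξ').1 fun α hα => ?_, ?_⟩
      · rw [key _ hη α hα, key _ hξ' α hα]
      · rintro rfl; exact hξ'
    exact hnp ξ (mem_sep.1 hξ').1 (this ▸ hZ)

end Pool.Agent.P.MP_37b794_lc
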