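import Pool.Agent.Lib.Constructible.Defs

/-!
Measurability of an ordinal in a transitive class.
-/

universe u

namespace Pool.Agent.P.MP_37b794_lc

open ZFSet

/-- `N` contains a nonprincipal `μ`-complete ultrafilter `U` on the ordinal `μ`, in the sense of
`N`: `U` is a proper filter on the subsets of `μ` that lie in `N`, it decides each of them, it
contains no singleton, and it is closed under intersections of sequences `f : γ → U` with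
`γ < μ` and `f ∈ N`. -/
def MeasurableIn (N : Set ZFSet.{u}) (μ : ZFSet.{u}) : Prop :=
  ∃ U ∈ N, (∀ X ∈ U, X ⊆ μ) ∧ μ ∈ U ∧ ∅ ∉ U ∧
    (∀ X ∈ U, ∀ Y ∈ N, X ⊆ Y → Y ⊆ μ → Y ∈ U) ∧
    (∀ X ∈ U, ∀ Y ∈ U, X ∩ Y ∈ U) ∧
    (∀ X ∈ N, X ⊆ μ → X ∈ U ∨ μ \ X ∈ U) ∧
    (∀ ξ ∈ μ, ({ξ} : ZFSet.{u}) ∉ U) ∧
    ∀ γ ∈ μ, ∀ f ∈ N, IsFunc γ U f →
      μ.sep (fun ξ => ∀ α X, pair α X ∈ f → ξ ∈ X) ∈ U

end Pool.Agent.P.MP_37b794_lc
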