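import Pool.Agent.P.MP_37b794_lc.Collapse
import Mathlib.SetTheory.Cardinal.Regular

/-!
The successor of a cardinal `c` with `c ≤ |V_β|` for some `β < c` is not measurable in any inner
model containing `V_(c+1)`.
-/

universe u

namespace Pool.Agent.P.MP_37b794_lc

open ZFSet Pool.Agent.Lib.Forcing Cardinal Ordinal Order

variable {N : Set ZFSet.{u}}

theorem exists_inj_ord {c : Cardinal.{u}} {B : ZFSet.{u}} (h : c ≤ B.card) :
    ∃ g : Ordinal.{u} → ZFSet.{u}, (∀ ξ < c.ord, g ξ ∈ B) ∧ Set.InjOn g (Set.Iio c.ord) := by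
  classical
  have h' : #(Set.Iio c.ord) ≤ #B := by
    rw [cardinalMk_coe_sort, Cardinal.mk_Iio_ordinal, card_ord]
    exact Cardinal.lift_le.2 h
  obtain ⟨e⟩ := h'
  refine ⟨fun ξ => if h : ξ < c.ord then (e ⟨ξ, h⟩).1 else ∅, fun ξ hξ => ?_, ?_⟩
  · simp only [dif_pos hξ]; exact (e ⟨ξ, hξ⟩).2
  · intro ξ hξ η hη H
    have hξ' : ξ < c.ord := hξ
    have hη' : η < c.ord := hη
    simp only [dif_pos hξ', dif_pos hη'] at H
    exact congrArg Subtype.val (e.injective (Subtype.ext H))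

theorem exists_inj_sets (c : Cardinal.{u}) :
    ∃ k : Ordinal.{u} → Set Ordinal.{u}, (∀ η < (succ c).ord, k η ⊆ Set.Iio c.ord) ∧
      Set.InjOn k (Set.Iio (succ c).ord) := by
  classical
  have h' : #(Set.Iio (succ c).ord) ≤ #(Set (Set.Iio c.ord)) := by
    rw [mk_set, Cardinal.mk_Iio_ordinal, Cardinal.mk_Iio_ordinal, card_ord, card_ord,
      ← Cardinal.lift_two_power]
    exact Cardinal.lift_le.2 (succ_le_of_lt (cantor c))
  obtain ⟨e⟩ := h'
  refine ⟨fun η => if h : η < (succ c).ord then Subtype.val '' e ⟨η, h⟩ else ∅, fun η hη => ?_, ?_⟩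
  · simp only [dif_pos hη]
    rintro _ ⟨x, -, rfl⟩
    exact x.2
  · intro ξ hξ η hη H
    have hξ' : ξ < (succ c).ord := hξ
    have hη' : η < (succ c).ord := hη
    simp only [dif_pos hξ', dif_pos hη'] at H
    exact congrArg Subtype.val (e.injective (Set.image_injective.2 Subtype.val_injective H))

theorem rank_pair_lt {l : Ordinal.{u}} (hl : IsSuccLimit l) {x y : ZFSet.{u}} (hx : x.rank < l)
    (hy : y.rank < l) : (pair x y).rank < l := by
  unfold pair
  rw [rank_pair, rank_pair, rank_singleton]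
  have := hl.succ_lt hx
  have := hl.succ_lt hy
  exact max_lt (hl.succ_lt ‹_›) (hl.succ_lt (max_lt ‹_› ‹_›))

theorem not_measurable_succ [ZFm N] (hord : ∀ o : Ordinal.{u}, o.toZFSet ∈ N)
    {c : Cardinal.{u}} (hc : ℵ₀ ≤ c) {β : Ordinal.{u}} (hβ : β < c.ord) (h : c ≤ preBeth β)
    (hV : vonNeumann (c.ord + 1) ∈ N) : ¬ MeasurableIn N (succ c).ord.toZFSet := by
  have hl : IsSuccLimit c.ord := isSuccLimit_ord hc
  obtain ⟨g, hgB, hg⟩ := exists_inj_ord (c := c) (B := vonNeumann β) (by rwa [card_vonNeumann])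
  obtain ⟨k, hk, hki⟩ := exists_inj_sets c
  have hN : ∀ X : ZFSet.{u}, (∀ z ∈ X, z.rank < c.ord) → X ∈ N := by
    intro X hX
    refine mem_of_mem hV ?_
    rw [vonNeumann_add_one, mem_powerset]
    exact fun z hz => mem_vonNeumann.2 (hX z hz)
  have hP : ∀ z ∈ powerset (vonNeumann β), z.rank < c.ord := fun z hz =>
    (subset_vonNeumann.1 (mem_powerset.1 hz)).trans_lt hβ
  refine not_measurable_of_codes hord (ord_lt_ord.2 (lt_succ c)) (vonNeumann β) g hgB hg k hk hki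
    (fun W hW => hN W fun z hz => hP z (hW hz)) (fun R hR => hN R fun z hz => ?_)
    (fun G hG => hN G fun z hz => ?_)
  · obtain ⟨a, ha, b, hb, rfl⟩ := mem_prod.1 (hR hz)
    exact rank_pair_lt hl (hP a ha) (hP b hb)
  · obtain ⟨a, ha, b, hb, rfl⟩ := mem_prod.1 (hG hz)
    refine rank_pair_lt hl ?_ ((mem_vonNeumann.1 hb).trans hβ)
    simpa using rank_lt_of_mem ha

theorem not_measurable_aleph_omega (hN : IsZFModel N) (hord : ∀ o : Ordinal.{u}, o.toZFSet ∈ N)
    (hV : vonNeumann ((ℵ_ ω).ord + 1) ∈ N) : ¬ MeasurableIn N (succ (ℵ_ ω)).ord.toZFSet := by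
  have := hN.zfm
  refine not_measurable_succ hord (aleph0_le_aleph _) (β := ω + ω) ?_ ?_ hV
  · rw [lt_ord, card_add, card_omega0, aleph0_add_aleph0, ← aleph_zero, aleph_lt_aleph]
    exact omega0_pos
  · exact aleph_le_beth ω

theorem constr_facts {b : ZFSet.{u}} (hb : b.IsTransitive) (h0 : ∅ ∈ b) :
    IsZFModel (constr Set.univ b) ∧ (∀ o : Ordinal.{u}, o.toZFSet ∈ constr Set.univ b) ∧
      b ∈ constr Set.univ b ∧ ∀ N : Set ZFSet.{u}, IsZFModel N →
        (∀ o : Ordinal.{u}, o.toZFSet ∈ N) → b ∈ N → constr Set.univ b ⊆ N := by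
  have := zfm_univ.{u}.zfm
  have : Trans (b : Set ZFSet.{u}) := ⟨fun x hx y hy => hb x hx hy, h0⟩
  refine ⟨isZFModel_constr zfm_univ.powerSet trivial,
    fun o => ordinal_mem_constr zfm_univ.powerSet trivial trivial (isOrdinal_toZFSet o),
    base_mem_constr, fun N hN hord hbN => ?_⟩
  have := hN.zfm
  rw [constr_congr (N := Set.univ) (N' := N) fun α hα => ⟨fun _ => hα.toZFSet_rank_eq ▸ hord _, fun _ => trivial⟩]
  exact constr_subset hN.powerSet hbN

end Pool.Agent.P.MP_37b794_lc
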